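import Pool.Agent.H30.GMC.StT

open AlgebraicGeometry CategoryTheory FCB MvPolynomial
open Pool.Agent.H22.GMC (Coord Maps Source stratum)

namespace GMC

namespace GF

section

variable (S : Source ℂ 2)

theorem den_ne {B : MvPolynomial (Fin (S.r + 1)) ℂ} (hB : B ∉ S.I) :
    algebraMap S.S S.K (S.res B) ≠ 0 := by
  intro h
  have h1 := IsFractionRing.injective S.S S.K (h.trans (map_zero _).symm)
  rw [Pool.Agent.H22.GMC.res_eq_zero_iff] at h1
  exact hB h1

theorem ratio_of_mem {A B : MvPolynomial (Fin (S.r + 1)) ℂ} (hB : B ∈ S.I) :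
    S.ratio A B = 0 := by
  unfold Source.ratio
  rw [Pool.Agent.H22.GMC.res_eq_zero_iff S |>.mpr hB, map_zero, div_zero]

/-- quotients of forms in the `F a` of equal degree lie in the image field -/
theorem ratio_mem_imageField (d : ℕ) (A B : MvPolynomial (Fin 10) ℂ) (hA : A.IsHomogeneous d)
    (hB : B.IsHomogeneous d) :
    S.ratio (aeval (fun i => S.F (eI i)) A) (aeval (fun i => S.F (eI i)) B) ∈ S.imageField := by
  obtain ⟨b, hb⟩ := S.F_ne
  set t := algebraMap S.S S.K (S.res (S.F b)) with ht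
  have ht0 : t ≠ 0 := den_ne S hb
  have key : ∀ G : MvPolynomial (Fin 10) ℂ, G.IsHomogeneous d →
      algebraMap S.S S.K (S.res (aeval (fun i => S.F (eI i)) G)) =
        aeval (fun i => S.ratio (S.F (eI i)) (S.F b)) G * t ^ d := by
    intro G hG
    rw [← Pool.Agent.H22.GMC.aeval_mul_of_isHomogeneous G d hG]
    have h1 : ∀ i, S.ratio (S.F (eI i)) (S.F b) * t = algebraMap S.S S.K (S.res (S.F (eI i))) := by
      intro i
      exact div_mul_cancel₀ _ ht0
    simp_rw [h1]
    have h2 : (((algebraMap S.S S.K).comp S.res).comp (aeval (fun i => S.F (eI i)) :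
        MvPolynomial (Fin 10) ℂ →ₐ[ℂ] MvPolynomial (Fin (S.r + 1)) ℂ).toRingHom) =
        (aeval (fun i => algebraMap S.S S.K (S.res (S.F (eI i)))) :
          MvPolynomial (Fin 10) ℂ →ₐ[ℂ] S.K).toRingHom := by
      apply MvPolynomial.ringHom_ext
      · intro z
        show algebraMap S.S S.K (S.res (aeval _ (C z))) = aeval _ (C z)
        rw [aeval_C, aeval_C]
        rfl
      · intro i
        show algebraMap S.S S.K (S.res (aeval _ (X i))) = aeval _ (X i)
        rw [aeval_X, aeval_X]
    exact congrArg (fun φ => φ G) h2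
  have hmem : ∀ G : MvPolynomial (Fin 10) ℂ,
      aeval (fun i => S.ratio (S.F (eI i)) (S.F b)) G ∈ S.imageField := by
    intro G
    have hg : ∀ i, S.ratio (S.F (eI i)) (S.F b) ∈ S.imageField := fun i =>
      IntermediateField.subset_adjoin _ _ ⟨_, _, rfl⟩
    have h3 := MvPolynomial.comp_aeval_apply
      (fun i => (⟨S.ratio (S.F (eI i)) (S.F b), hg i⟩ : S.imageField)) S.imageField.val G
    rw [← show _ = aeval (fun i => S.ratio (S.F (eI i)) (S.F b)) G from h3]
    exact (aeval _ G : S.imageField).2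
  show algebraMap S.S S.K (S.res (aeval (fun i => S.F (eI i)) A)) /
    algebraMap S.S S.K (S.res (aeval (fun i => S.F (eI i)) B)) ∈ S.imageField
  rw [key A hA, key B hB, mul_div_mul_right _ _ (pow_ne_zero d ht0)]
  exact S.imageField.div_mem (hmem A) (hmem B)

end

end GF

theorem gfin_thm (hA : S_RATA) (hB : S_RATB) (hG : S_RGEN) (hRP : S_RPUL) (hT : S_THET) :
    S_GFIN := by
  intro hP M Y f R hf hfin
  obtain ⟨θ₀, hθ₀⟩ := hT Y
  let S : Source ℂ 2 := R.src hP
  let θ : Y.X.functionField →+* S.K := θ₀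
  have hθ : ∀ (A B : MvPolynomial (Fin (Y.n + 1)) ℂ) (g : Y.X.functionField),
      IsRatio Y.emb A B g → θ g = S.ratio A B := by
    intro A B g hg
    have h1 := hθ₀ A B g hg
    obtain ⟨d, hA', hB', hn, -⟩ := hg
    have hn' : B ∉ S.I := hn
    have h2 := GF.den_ne S hn'
    exact eq_div_of_mul_eq h2 h1
  -- the range of `θ`
  have hC : ∀ z : ℂ, algebraMap ℂ S.K z ∈ θ.fieldRange := by
    intro z
    have h1 := (hB Y.X Y.n Y.emb).2.2 Y.str Y.comm z
    refine ⟨ffHom Y.str z, ?_⟩
    rw [hθ _ _ _ h1]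
    show algebraMap S.S S.K (S.res (C z)) / algebraMap S.S S.K (S.res 1) = _
    rw [map_one, map_one, div_one]
    rfl
  have hfr : S.functionField ≤ θ.fieldRange.toIntermediateField hC := by
    unfold Source.functionField
    rw [IntermediateField.adjoin_le_iff]
    rintro _ ⟨D, A, B, hA', hB', rfl⟩
    by_cases hBI : B ∈ S.I
    · rw [GF.ratio_of_mem S hBI]
      exact IntermediateField.zero_mem _
    · obtain ⟨g, hg⟩ := (hA Y.X Y.n Y.emb).1 D A B hA' hB' hBI
      exact ⟨g, hθ _ _ _ hg⟩
  -- pull-backs of functions on `M.X`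
  have hpb : ∀ x : M.X.presheaf.stalk (f (genericPoint Y.X)),
      θ ((f.stalkMap (genericPoint Y.X)).hom x) ∈ S.imageField := by
    intro x
    obtain ⟨d, A, B, hA', hB', hn, hr⟩ := hG M.V (f (genericPoint Y.X))
      (algebraMap _ M.X.functionField x) ⟨x, rfl⟩
    obtain ⟨g, hg1, s, hs1, hs2⟩ := hRP M.X Y.X f 9 M.emb A B _ hr hn
    have hsx : s = x := IsFractionRing.injective _ M.X.functionField hs1
    rw [hsx] at hs2
    rw [hs2, hθ _ _ _ (R.ratio A B g hg1)]
    exact GF.ratio_mem_imageField S d A B hA' hB'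
  intro z hz
  obtain ⟨g, hg⟩ : ∃ g, θ g = z := hfr hz
  -- integrality
  have hres : Function.Injective (Y.X.residue (genericPoint Y.X)).hom := by
    have : Function.Injective ((Y.X.residue (genericPoint Y.X)).hom :
      Y.X.functionField →+* Y.X.residueField (genericPoint Y.X)) := RingHom.injective _
    exact this
  obtain ⟨P, hPm, hP0⟩ := hfin.to_isIntegral ((Y.X.residue (genericPoint Y.X)).hom g)
  obtain ⟨P₀, hP₀⟩ := Polynomial.map_surjective (M.X.residue (f (genericPoint Y.X))).hom
      (M.X.residue_surjective (f (genericPoint Y.X))) P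
  obtain ⟨P', hP'1, -, hP'3⟩ := Polynomial.lifts_and_natDegree_eq_and_monic
    (f := (M.X.residue (f (genericPoint Y.X))).hom) (p := P)
    ((Polynomial.mem_lifts _).mpr ⟨P₀, hP₀⟩) hPm
  have hcomp : ((f.residueFieldMap (genericPoint Y.X)).hom.comp
      (M.X.residue (f (genericPoint Y.X))).hom) =
      (Y.X.residue (genericPoint Y.X)).hom.comp (f.stalkMap (genericPoint Y.X)).hom := by
    have := Scheme.residue_residueFieldMap f (genericPoint Y.X)
    exact congrArg CommRingCat.Hom.hom this
  have hQ : P'.eval₂ (f.stalkMap (genericPoint Y.X)).hom g = 0 := by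
    apply hres
    rw [map_zero, Polynomial.hom_eval₂, ← hcomp, ← Polynomial.eval₂_map, hP'1]
    exact hP0
  have hQ2 : P'.eval₂ (θ.comp (f.stalkMap (genericPoint Y.X)).hom) z = 0 := by
    rw [← hg, ← Polynomial.hom_eval₂]
    exact (congrArg θ hQ).trans (map_zero θ)
  let ι : M.X.presheaf.stalk (f (genericPoint Y.X)) →+* S.imageField :=
    RingHom.codRestrict (θ.comp (f.stalkMap (genericPoint Y.X)).hom) S.imageField.toSubfield hpb
  have hI : IsIntegral S.imageField z := by
    refine ⟨P'.map ι, hP'3.map ι, ?_⟩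
    rw [Polynomial.eval₂_map]
    exact hQ2
  exact hI.isAlgebraic

end GMC
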