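import Pool.Agent.H30.GMC.StT

open AlgebraicGeometry CategoryTheory FCB MvPolynomial
open Pool.Agent.H22.GMC (Coord Maps Source stratum)

namespace GMC

namespace LI

theorem aeval_eq {σ : Type} (v : σ → ℂ) (p : MvPolynomial σ ℂ) :
    (aeval v p : ℂ) = eval v p := by
  rw [← MvPolynomial.coe_aeval_eq_eval]
  rfl

theorem eval_smul' {n d : ℕ} (p : MvPolynomial (Fin (n + 1)) ℂ) (hp : p.IsHomogeneous d) (l : ℂ)
    (v : Fin (n + 1) → ℂ) : eval (l • v) p = l ^ d * eval v p := by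
  have h1 := Pool.Agent.H22.GMC.aeval_mul_of_isHomogeneous p d hp v l
  rw [aeval_eq, aeval_eq] at h1
  rw [mul_comm, ← h1]
  congr 2
  funext i
  simp [mul_comm]

/-- inhomogeneous versions of the forms -/
noncomputable def ps {n e : ℕ} (c : Fin (n + 1) × Fin (e + 1) → ℂ) (i : Fin (n + 1)) :
    Polynomial ℂ :=
  ∑ j : Fin (e + 1), Polynomial.C (c (i, j)) * Polynomial.X ^ (j : ℕ)

theorem eval_ps {n e : ℕ} (c : Fin (n + 1) × Fin (e + 1) → ℂ) (i : Fin (n + 1)) (t : ℂ) :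
    (ps c i).eval t = ev c t 1 i := by
  unfold ps ev
  rw [Polynomial.eval_finsetSum]
  apply Finset.sum_congr rfl
  intro j _
  simp

theorem eval_aeval_ps {n e : ℕ} (c : Fin (n + 1) × Fin (e + 1) → ℂ)
    (p : MvPolynomial (Fin (n + 1)) ℂ) (t : ℂ) :
    (aeval (ps c) p : Polynomial ℂ).eval t = eval (ev c t 1) p := by
  have h1 := MvPolynomial.comp_aeval_apply (ps c) (Polynomial.aeval t : Polynomial ℂ →ₐ[ℂ] ℂ) p
  rw [Polynomial.coe_aeval_eq_eval] at h1
  have h2 : (fun i => (ps c i).eval t) = ev c t 1 := funext fun i => eval_ps c i t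
  have h3 : Polynomial.eval t (aeval (ps c) p : Polynomial ℂ) =
      aeval (fun i => (ps c i).eval t) p := h1
  rw [h3, h2, aeval_eq]

theorem eval_bf {n e : ℕ} (c : Fin (n + 1) × Fin (e + 1) → ℂ) (i : Fin (n + 1)) (s t : ℂ) :
    eval ![s, t] (bf c i) = ev c s t i := by
  unfold bf ev
  rw [map_sum]
  apply Finset.sum_congr rfl
  intro j _
  simp

theorem eval_aeval_bf {n e : ℕ} (c : Fin (n + 1) × Fin (e + 1) → ℂ)
    (p : MvPolynomial (Fin (n + 1)) ℂ) (s t : ℂ) :
    eval ![s, t] (aeval (bf c) p) = eval (ev c s t) p := by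
  have h1 := MvPolynomial.comp_aeval_apply (bf c) (aeval ![s, t] : MvPolynomial (Fin 2) ℂ →ₐ[ℂ] ℂ) p
  simp only [aeval_eq, eval_bf] at h1
  exact h1

theorem ev_scale {n e : ℕ} (c : Fin (n + 1) × Fin (e + 1) → ℂ) (s t : ℂ) (ht : t ≠ 0) :
    ev c s t = t ^ e • ev c (s / t) 1 := by
  funext i
  have h : ∀ j : Fin (e + 1), c (i, j) * s ^ (j : ℕ) * t ^ (e - j) =
      t ^ e * (c (i, j) * (s / t) ^ (j : ℕ) * 1 ^ (e - j)) := by
    intro j
    have hj : (j : ℕ) ≤ e := Nat.lt_succ_iff.mp j.2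
    obtain ⟨m, hm⟩ := Nat.exists_eq_add_of_le hj
    have h3 : e - (j : ℕ) = m := by omega
    have h1 : t ^ e = t ^ m * t ^ (j : ℕ) := by
      rw [← pow_add]
      congr 1
      omega
    rw [h3, h1, one_pow, mul_one, div_pow]
    have h2 : t ^ (j : ℕ) ≠ 0 := pow_ne_zero _ ht
    have h4 : s ^ (j : ℕ) = t ^ (j : ℕ) * (s ^ (j : ℕ) / t ^ (j : ℕ)) :=
      (mul_div_cancel₀ _ h2).symm
    calc c (i, j) * s ^ (j : ℕ) * t ^ m
        = c (i, j) * (t ^ (j : ℕ) * (s ^ (j : ℕ) / t ^ (j : ℕ))) * t ^ m := by rw [← h4]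
      _ = _ := by ring
  show ∑ j : Fin (e + 1), c (i, j) * s ^ (j : ℕ) * t ^ (e - j) = t ^ e *
    ∑ j : Fin (e + 1), c (i, j) * (s / t) ^ (j : ℕ) * 1 ^ (e - j)
  rw [Finset.mul_sum]
  exact Finset.sum_congr rfl fun j _ => h j

/-- if the inhomogeneous version vanishes then the form vanishes -/
theorem bf_eq_zero {n e d : ℕ} (c : Fin (n + 1) × Fin (e + 1) → ℂ)
    (p : MvPolynomial (Fin (n + 1)) ℂ) (hp : p.IsHomogeneous d)
    (h0 : (aeval (ps c) p : Polynomial ℂ) = 0) : aeval (bf c) p = 0 := by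
  have h1 : X 1 * aeval (bf c) p = (0 : MvPolynomial (Fin 2) ℂ) := by
    apply MvPolynomial.funext
    intro x
    have hx : x = ![x 0, x 1] := by
      funext i
      fin_cases i <;> rfl
    rw [hx, map_mul, map_zero, eval_X, eval_aeval_bf]
    show x 1 * _ = 0
    by_cases ht : x 1 = 0
    · rw [ht, zero_mul]
    · rw [ev_scale c _ _ ht]
      have h2 : eval ((x 1) ^ e • ev c (x 0 / x 1) 1) p =
          ((x 1) ^ e) ^ d * eval (ev c (x 0 / x 1) 1) p := by
        exact eval_smul' _ hp _ _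
      rw [h2, ← eval_aeval_ps, h0, Polynomial.eval_zero, mul_zero, mul_zero]
  exact (mul_eq_zero.mp h1).resolve_left (X_ne_zero _)

/-- polynomials without common zeros generate the unit ideal -/
theorem bezout {ι : Type} [Fintype ι] (P : ι → Polynomial ℂ) (h : ∀ t, ∃ a, (P a).eval t ≠ 0) :
    ∃ u : ι → Polynomial ℂ, ∑ a, u a * P a = 1 := by
  have h1 : Ideal.span (Set.range P) = ⊤ := by
    obtain ⟨q, hq⟩ := (IsPrincipalIdealRing.principal (Ideal.span (Set.range P)))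
    have hq' : Ideal.span (Set.range P) = Ideal.span {q} := hq
    have hdvd : ∀ a, q ∣ P a := by
      intro a
      rw [← Ideal.mem_span_singleton, ← hq']
      exact Ideal.subset_span ⟨a, rfl⟩
    rw [hq', Ideal.span_singleton_eq_top]
    by_contra hu
    have hdeg : q.degree ≠ 0 := by
      intro h0
      exact hu (Polynomial.isUnit_iff_degree_eq_zero.mpr h0)
    obtain ⟨t, ht⟩ := IsAlgClosed.exists_root q hdeg
    obtain ⟨a, ha⟩ := h t
    exact ha (Polynomial.eval_eq_zero_of_dvd_of_eval_eq_zero (hdvd a) ht)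
  have h2 : (1 : Polynomial ℂ) ∈ Ideal.span (Set.range P) := by rw [h1]; trivial
  rw [Ideal.mem_span_range_iff_exists_fun] at h2
  exact h2

end LI

theorem lift_thm (hIPT : S_IPT) : S_LIFT := by
  intro hP M Y f R hf e' ψ g hg hgiv hne e c hc
  -- evaluation at the points of the line
  have hpt : ∀ t : ℂ, ∃ x : PS 1, IsPt x ![t, 1] := fun t =>
    (hIPT 1).1 _ (by intro h; have := congrFun h 1; simp at this)
  have hvan : ∀ p ∈ Y.I, (aeval (LI.ps ψ) p : Polynomial ℂ) = 0 := by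
    intro p hp
    apply Polynomial.funext
    intro t
    rw [LI.eval_aeval_ps, Polynomial.eval_zero]
    obtain ⟨x, hx⟩ := hpt t
    have h1 := hgiv t 1 x hx
    have hsp : Y.emb (genericPoint Y.X) ⤳ Y.emb (g x) :=
      Y.emb.base.hom.map_specializes ((genericPoint_spec Y.X).specializes trivial)
    have h2 := ((hP Y.n).2.2.2.2.1 _ _).mp hsp
    have h3 : p ∈ PI (Y.emb (g x)) := h2 hp
    have h4 : ∀ d, eval (ev ψ t 1) (homogeneousComponent d p) = 0 := by
      intro d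
      have h5 := ((hP Y.n).2.1 _ p).mp h3 d
      exact (h1 d _ (homogeneousComponent_isHomogeneous d p)).mp h5
    have h6 := sum_homogeneousComponent p
    rw [← h6, map_sum]
    exact Finset.sum_eq_zero fun d _ => h4 d
  set w : Fin 10 × Fin (e + 1) → ℂ := fun p => c.coeffs (eI p.1, p.2) with hw
  have hform : ∀ (a : Coord 2) (t : ℂ),
      (Pool.Agent.H22.GMC.form c.coeffs a).eval t = ev w t 1 (eI.symm a) := by
    intro a t
    rw [← LI.eval_ps]
    unfold Pool.Agent.H22.GMC.form LI.ps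
    simp only [hw, Equiv.apply_symm_apply]
  have hprop : ∀ a b : Coord 2, (aeval (LI.ps ψ) (R.F a) : Polynomial ℂ) *
      Pool.Agent.H22.GMC.form c.coeffs b = (aeval (LI.ps ψ) (R.F b) : Polynomial ℂ) *
      Pool.Agent.H22.GMC.form c.coeffs a := by
    intro a b
    apply Polynomial.funext
    intro t
    obtain ⟨x, hx⟩ := hpt t
    obtain ⟨l, hl⟩ := R.pt (g x) (ev ψ t 1) (ev w t 1) (hgiv t 1 x hx) (hc t 1 x hx)
    have h1 : ∀ a, (aeval (LI.ps ψ) (R.F a) : Polynomial ℂ).eval t = l * ev w t 1 (eI.symm a) := by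
      intro a
      rw [LI.eval_aeval_ps, ← hl, Equiv.apply_symm_apply]
    rw [Polynomial.eval_mul, Polynomial.eval_mul, h1, h1, hform, hform]
    ring
  obtain ⟨u, hu⟩ := LI.bezout (Pool.Agent.H22.GMC.form c.coeffs) c.isMap.base
  have hG : ∀ b, (aeval (LI.ps ψ) (R.F b) : Polynomial ℂ) =
      (∑ a, u a * (aeval (LI.ps ψ) (R.F a) : Polynomial ℂ)) *
        Pool.Agent.H22.GMC.form c.coeffs b := by
    intro b
    rw [Finset.sum_mul]
    have h1 : ∀ a ∈ Finset.univ, u a * (aeval (LI.ps ψ) (R.F a) : Polynomial ℂ) *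
        Pool.Agent.H22.GMC.form c.coeffs b = (aeval (LI.ps ψ) (R.F b) : Polynomial ℂ) *
        (u a * Pool.Agent.H22.GMC.form c.coeffs a) := by
      intro a _
      rw [mul_assoc, hprop a b]
      ring
    rw [Finset.sum_congr rfl h1, ← Finset.mul_sum, hu, mul_one]
  refine ⟨LI.ps ψ, ∑ a, u a * (aeval (LI.ps ψ) (R.F a) : Polynomial ℂ), ?_, hvan, ?_, hG⟩
  · intro i
    unfold LI.ps
    apply Polynomial.natDegree_sum_le_of_forall_le
    intro j _
    refine (Polynomial.natDegree_C_mul_X_pow_le _ _).trans ?_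
    exact Nat.lt_succ_iff.mp j.2
  · intro h0
    obtain ⟨a, ha⟩ := hne
    apply ha
    apply LI.bf_eq_zero ψ _ (R.hom a)
    rw [hG a, h0, zero_mul]

end GMC
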