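import Pool.Agent.H20.GMC.RLOC

open AlgebraicGeometry CategoryTheory FCB MvPolynomial

namespace GMC

theorem rgen_thm : S_RGEN := by
  intro V y f hf
  obtain ⟨s, hs⟩ := hf
  have hsurj : Function.Surjective (V.emb.stalkMap y).hom :=
    SurjectiveOnStalks.stalkMap_surjective (f := V.emb) y
  obtain ⟨t, ht⟩ := hsurj s
  set u := (Proj.stalkIso (grd V.n) (V.emb y)).hom.hom t with hu
  have htu : (Proj.stalkIso (grd V.n) (V.emb y)).inv.hom u = t := by
    rw [hu]
    have := (Proj.stalkIso (grd V.n) (V.emb y)).hom_inv_id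
    exact congrArg (fun φ => φ.hom t) this
  obtain ⟨c, hc⟩ := HomogeneousLocalization.mk_surjective u
  obtain ⟨d, ⟨A, hA⟩, ⟨B, hB⟩, hy⟩ := c
  have hsp : genericPoint V.X ⤳ y := (genericPoint_spec V.X).specializes trivial
  have hmap : V.emb (genericPoint V.X) ⤳ V.emb y := V.emb.base.hom.map_specializes hsp
  have hy' : B ∉ PI (V.emb y) := hy
  have hn : B ∉ PI (V.emb (genericPoint V.X)) := by
    intro hB'
    apply hy'
    have h1 : (show ProjectiveSpectrum (grd V.n) from V.emb (genericPoint V.X)) ≤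
        (show ProjectiveSpectrum (grd V.n) from V.emb y) := by
      rw [ProjectiveSpectrum.le_iff_mem_closure]
      exact specializes_iff_mem_closure.mp hmap
    exact h1 hB'
  refine ⟨d, A, B, hA, hB, hy', d, hA, hB, hn, ?_⟩
  rw [← RL.spec_frac V.n _ _ hmap d A B hA hB hy' hn]
  rw [← hs, ← ht, ← htu, ← hc]
  exact (Scheme.Hom.stalkSpecializes_stalkMap_apply V.emb (genericPoint V.X) y hsp _).symm

end GMC
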