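import Pool.Agent.H30.GMC.StT

open AlgebraicGeometry CategoryTheory FCB MvPolynomial

namespace GMC

namespace RL

/-- fractions on `ℙⁿ` are compatible with specialisation -/
theorem spec_frac (n : ℕ) (x y : PS n) (hxy : x ⤳ y) (d : ℕ)
    (A B : MvPolynomial (Fin (n + 1)) ℂ) (hA : A ∈ grd n d) (hB : B ∈ grd n d)
    (hy : B ∉ PI y) (hx : B ∉ PI x) :
    ((PS n).presheaf.stalkSpecializes hxy).hom ((Proj.stalkIso (grd n) y).inv.hom
      (HomogeneousLocalization.mk ⟨d, ⟨A, hA⟩, ⟨B, hB⟩, hy⟩)) =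
    (Proj.stalkIso (grd n) x).inv.hom
      (HomogeneousLocalization.mk ⟨d, ⟨A, hA⟩, ⟨B, hB⟩, hx⟩) := by
  let x' : ProjectiveSpectrum (grd n) := x
  let y' : ProjectiveSpectrum (grd n) := y
  let c : HomogeneousLocalization.NumDenSameDeg (grd n) y'.asHomogeneousIdeal.toIdeal.primeCompl :=
    ⟨d, ⟨A, hA⟩, ⟨B, hB⟩, hy⟩
  let c' : HomogeneousLocalization.NumDenSameDeg (grd n) x'.asHomogeneousIdeal.toIdeal.primeCompl :=
    ⟨d, ⟨A, hA⟩, ⟨B, hB⟩, hx⟩
  have h1 : (Proj.stalkIso (grd n) y).inv.hom (HomogeneousLocalization.mk c) =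
      (ProjectiveSpectrum.Proj.structureSheaf (grd n)).presheaf.germ _ y'
        (AlgebraicGeometry.mem_basicOpen_den _ y' c)
        (AlgebraicGeometry.sectionInBasicOpen _ y' c) := rfl
  have h2 : (Proj.stalkIso (grd n) x).inv.hom (HomogeneousLocalization.mk c') =
      (ProjectiveSpectrum.Proj.structureSheaf (grd n)).presheaf.germ _ x'
        (AlgebraicGeometry.mem_basicOpen_den _ x' c')
        (AlgebraicGeometry.sectionInBasicOpen _ x' c') := rfl
  show ((PS n).presheaf.stalkSpecializes hxy).hom ((Proj.stalkIso (grd n) y).inv.hom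
      (HomogeneousLocalization.mk c)) = (Proj.stalkIso (grd n) x).inv.hom
      (HomogeneousLocalization.mk c')
  rw [h1, h2]
  have h3 := TopCat.Presheaf.germ_stalkSpecializes_apply (PS n).presheaf
    (U := ProjectiveSpectrum.basicOpen (grd n) B)
    (AlgebraicGeometry.mem_basicOpen_den _ y' c) hxy
    (AlgebraicGeometry.sectionInBasicOpen _ y' c)
  refine Eq.trans h3 ?_
  rfl

/-- units in the stalks of `ℙⁿ` -/
theorem unit_frac (n : ℕ) (y : PS n) (d : ℕ)
    (A B : MvPolynomial (Fin (n + 1)) ℂ) (hA : A ∈ grd n d) (hB : B ∈ grd n d)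
    (hy : B ∉ PI y) :
    IsUnit ((Proj.stalkIso (grd n) y).inv.hom
      (HomogeneousLocalization.mk ⟨d, ⟨A, hA⟩, ⟨B, hB⟩, hy⟩)) ↔ A ∉ PI y := by
  let y' : ProjectiveSpectrum (grd n) := y
  have hl : IsLocalHom (Proj.stalkIso (grd n) y).inv.hom := isLocalHom_of_isIso _
  rw [isUnit_map_iff, ← HomogeneousLocalization.isUnit_iff_isUnit_val,
    HomogeneousLocalization.val_mk, Localization.mk_eq_mk',
    IsLocalization.AtPrime.isUnit_mk'_iff _ y'.asHomogeneousIdeal.toIdeal]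
  rfl

end RL

theorem rloc_thm : S_RLOC := by
  intro T _ n h y A B f hf hy
  obtain ⟨d, hA, hB, hn, rfl⟩ := hf
  have hsp : genericPoint T ⤳ y := (genericPoint_spec T).specializes trivial
  have hmap : h (genericPoint T) ⤳ h y := h.base.hom.map_specializes hsp
  set s0 : (PS n).presheaf.stalk (h y) := (Proj.stalkIso (grd n) (h y)).inv.hom
      (HomogeneousLocalization.mk ⟨d, ⟨A, hA⟩, ⟨B, hB⟩, hy⟩) with hs0
  have hs : algebraMap (T.presheaf.stalk y) T.functionField ((h.stalkMap y).hom s0) =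
      (h.stalkMap (genericPoint T)).hom ((Proj.stalkIso (grd n) (h (genericPoint T))).inv.hom
      (HomogeneousLocalization.mk ⟨d, ⟨A, hA⟩, ⟨B, hB⟩, hn⟩)) := by
    rw [← RL.spec_frac n _ _ hmap d A B hA hB hy hn]
    exact (Scheme.Hom.stalkSpecializes_stalkMap_apply h (genericPoint T) y hsp s0).symm
  have hinj : Function.Injective (algebraMap (T.presheaf.stalk y) T.functionField) :=
    IsFractionRing.injective _ _
  refine ⟨⟨_, hs⟩, ?_⟩
  have hu : UnitAt y ((h.stalkMap (genericPoint T)).hom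
      ((Proj.stalkIso (grd n) (h (genericPoint T))).inv.hom
      (HomogeneousLocalization.mk ⟨d, ⟨A, hA⟩, ⟨B, hB⟩, hn⟩))) ↔
      IsUnit ((h.stalkMap y).hom s0) := by
    constructor
    · rintro ⟨s, hs1, hs2⟩
      rw [← hs] at hs2
      rwa [← hinj hs2]
    · intro h1
      exact ⟨_, h1, hs⟩
  rw [hu, isUnit_map_iff, hs0]
  exact RL.unit_frac n (h y) d A B hA hB hy

end GMC
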